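import Mathlib

set_option autoImplicit false

namespace Pool.Agent.Results.MP_5a7388_gt.Main

open Set Topology Filter

/-- The property of being s-complete. -/
def SComplete (X : Type) [SemilatticeInf X] [TopologicalSpace X] : Prop :=
  (∀ S : Set X, S.Nonempty → InfClosed S → ∃ a, IsGLB S a ∧ a ∈ closure {x | ∃ s ∈ S, s ≤ x}) ∧
    ∀ C : Set X, C.Nonempty → IsChain (· ≤ ·) C →
      ∃ a, IsLUB C a ∧ a ∈ closure {x | ∃ c ∈ C, x ≤ c}

/-- The property of being c-complete. -/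
def CComplete (X : Type) [SemilatticeInf X] [TopologicalSpace X] : Prop :=
  ∀ F : Set X, IsClosed F → IsUpperSet F → ∀ C ⊆ F, C.Nonempty → IsChain (· ≤ ·) C →
    (∃ a, IsGLB C a ∧ a ∈ F) ∧ ∃ a, IsLUB C a ∧ a ∈ closure {x | ∃ c ∈ C, x ≤ c}

def P (g : ℕ → ℕ∞) : Prop := Antitone g ∧ ∀ j, g (2 * j) = ⊤ ∨ g (2 * j + 1) = g (2 * j)

def Y : Type := {g // P g}

noncomputable instance : SemilatticeSup Y := Subtype.semilatticeSup fun g h a b =>
  ⟨a.1.sup b.1, fun j => by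
    rcases a.2 j with c | c
    · exact .inl (by simp [c])
    · rcases b.2 j with d | d
      · exact .inl (by simp [d])
      · exact .inr (by simp [c, d])⟩

def O (k : ℕ) (g : Y) : Prop := g.1 = ⊤ ∨ ∃ j, k ≤ j ∧ g.1 (2 * j) = ⊤ ∧ g.1 (2 * j + 1) ≠ ⊤

instance : TopologicalSpace Y := .induced (fun g => (g.1, fun k => O k g)) inferInstance

theorem td {α : Type} {l : Filter α} {f : α → Y} {g : Y} : Tendsto f l (𝓝 g) ↔
    Tendsto (fun x => (f x).1) l (𝓝 g.1) ∧ ∀ k, O k g → ∀ᶠ x in l, O k (f x) := by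
  rw [nhds_induced, tendsto_comap_iff, Prod.tendsto_iff, tendsto_pi_nhds (u := l)
    (g := fun k => O k g)]
  simp only [tendsto_nhds_Prop, Function.comp_def]

theorem t1 {α : Type} {l : Filter α} {f : α → Y} {g : Y} (hg : g.1 ≠ ⊤)
    (h : Tendsto (fun x => (f x).1) l (𝓝 g.1)) : Tendsto f l (𝓝 g) := by
  refine td.2 ⟨h, fun k hk => ?_⟩
  obtain ⟨j, a, b, c⟩ := hk.resolve_left hg
  have h1 := tendsto_pi_nhds.1 h (2 * j + 1)
  have h2 := (tendsto_pi_nhds.1 h (2 * j)).eventually (lt_mem_nhds (b ▸ c.lt_top))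
  rw [ENat.nhds_eq_pure c, tendsto_pure] at h1
  filter_upwards [h1, h2] with x x1 x2
  exact .inr ⟨j, a, ((f x).2.2 j).resolve_right fun e => x2.ne (x1.symm.trans e), x1 ▸ c⟩

theorem t2 {α : Type} {l : Filter α} {f : α → Y} {g : Y} (hg : g.1 = ⊤)
    (h : ∀ k, ∀ᶠ x in l, O k (f x)) : Tendsto f l (𝓝 g) := by
  refine td.2 ⟨tendsto_pi_nhds.2 fun n => tendsto_nhds_of_eventually_eq ((h n).mono ?_),
    fun k _ => h k⟩
  rintro x (e | ⟨j, a, b, -⟩)
  · rw [e, hg]
  · rw [hg]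
    exact top_le_iff.1 (b ▸ (f x).2.1 (by omega))

theorem cv : Continuous fun g : Y => g.1 :=
  continuous_iff_continuousAt.2 fun _ => (td.1 tendsto_id).1

theorem osup {k m : ℕ} {g h : Y} (a : O (k + m) g) (b : h.1 m ≠ ⊤) : O k (g ⊔ h) := by
  rcases a with a | ⟨j, a1, a2, a3⟩
  · exact .inl (by change g.1 ⊔ h.1 = ⊤; simp [a])
  · refine .inr ⟨j, by omega, by change g.1 _ ⊔ h.1 _ = ⊤; simp [a2], ?_⟩
    exact (max_lt a3.lt_top ((h.2.1 (by omega)).trans_lt b.lt_top)).ne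

theorem osup' {k : ℕ} {g h : Y} (a : O k g) (b : O k h) : O k (g ⊔ h) := by
  rcases a with a | ⟨j, a1, a2, a3⟩
  · exact .inl (by change g.1 ⊔ h.1 = ⊤; simp [a])
  rcases b with b | ⟨i, b1, b2, b3⟩
  · exact .inl (by change g.1 ⊔ h.1 = ⊤; simp [b])
  rcases le_total i j with c | c
  · exact .inr ⟨j, a1, by change g.1 _ ⊔ h.1 _ = ⊤; simp [a2],
      (max_lt a3.lt_top ((h.2.1 (by omega)).trans_lt b3.lt_top)).ne⟩
  · exact .inr ⟨i, b1, by change g.1 _ ⊔ h.1 _ = ⊤; simp [b2],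
      (max_lt ((g.2.1 (by omega)).trans_lt a3.lt_top) b3.lt_top).ne⟩

theorem ev {α : Type} {l : Filter α} {f f' : α → Y} {g h : Y} (hg : g.1 = ⊤)
    (a : Tendsto f l (𝓝 g)) (b : Tendsto f' l (𝓝 h)) (k : ℕ) : ∀ᶠ x in l, O k (f x ⊔ f' x) := by
  by_cases c : h.1 = ⊤
  · filter_upwards [(td.1 a).2 k (.inl hg), (td.1 b).2 k (.inl c)] with x using osup'
  · obtain ⟨m, hm⟩ := Function.ne_iff.1 c
    filter_upwards [(td.1 a).2 (k + m) (.inl hg),
      (tendsto_pi_nhds.1 (td.1 b).1 m).eventually_ne hm] with x using osup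

instance : ContinuousSup Y := ⟨continuous_iff_continuousAt.2 fun ⟨g, h⟩ => by
  by_cases c : (g ⊔ h).1 = ⊤
  · refine t2 c fun k => ?_
    by_cases a : g.1 = ⊤
    · exact ev a (continuousAt_fst (p := (g, h))).tendsto continuousAt_snd.tendsto k
    by_cases b : h.1 = ⊤
    · simpa only [sup_comm] using ev b (continuousAt_snd (p := (g, h))).tendsto
        continuousAt_fst.tendsto k
    obtain ⟨m, hm⟩ := Function.ne_iff.1 a
    obtain ⟨n, hn⟩ := Function.ne_iff.1 b
    exact absurd (congrFun c (m + n)) (max_lt ((g.2.1 (by omega)).trans_lt (Ne.lt_top hm))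
      ((h.2.1 (by omega)).trans_lt (Ne.lt_top hn))).ne
  · exact t1 c (continuous_pi fun l => ((continuous_apply l).comp (cv.comp continuous_fst)).max
      ((continuous_apply l).comp (cv.comp continuous_snd))).continuousAt⟩

theorem cl : IsClosed {g | P g} := by
  simp only [P, setOf_and, setOf_forall, setOf_or]
  exact isClosed_antitone.inter (isClosed_iInter fun j => (isClosed_eq (by fun_prop)
    continuous_const).union (isClosed_eq (by fun_prop) (by fun_prop)))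

theorem an (n : ℕ) (v : ℕ∞) : Antitone fun l => if l ≤ n then v else 0 := fun a b h => by
  dsimp only
  split_ifs <;> first | exact le_rfl | exact zero_le | omega

def u (j : ℕ) (v : ℕ∞) : Y := ⟨fun l => if l ≤ 2 * j + 1 then v else 0, an _ _, fun i => .inr (by
  dsimp only
  split_ifs <;> first | rfl | omega)⟩

def b (j : ℕ) : Y := ⟨fun l => if l ≤ 2 * j then ⊤ else 0, an _ _, fun i => by
  dsimp only
  split_ifs <;> first | omega | simp⟩

theorem cc (F : Set Y) (h1 : IsClosed F) (h2 : IsLowerSet F) (C : Set Y) (h3 : C ⊆ F)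
    (h4 : C.Nonempty) (h5 : IsChain (· ≤ ·) C) :
    (∃ a, IsLUB C a ∧ a ∈ F) ∧ ∃ a, IsGLB C a ∧ a ∈ closure {x | ∃ c ∈ C, c ≤ x} := by
  have := h4.to_subtype
  have : IsDirectedOrder C := ⟨fun a b => (h5.total a.2 b.2).elim (⟨b, ·, le_rfl⟩) (⟨a, le_rfl, ·⟩)⟩
  have : IsCodirectedOrder C :=
    ⟨fun a b => (h5.total a.2 b.2).elim (⟨a, le_rfl, ·⟩) (⟨b, ·, le_rfl⟩)⟩
  have m : Monotone fun c : C => c.1.1 := fun _ _ h => h
  have a1 := tendsto_atTop_iSup m
  have a2 := tendsto_atBot_iInf m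
  let s : Y := ⟨_, cl.mem_of_tendsto a1 (Eventually.of_forall fun c => c.1.2)⟩
  let t : Y := ⟨_, cl.mem_of_tendsto a2 (Eventually.of_forall fun c => c.1.2)⟩
  refine ⟨⟨s, ⟨fun c hc => le_iSup (fun c : C => c.1.1) ⟨c, hc⟩,
    fun c hc => iSup_le (f := fun c : C => c.1.1) fun d => hc d.2⟩, ?_⟩,
    t, ⟨fun c hc => iInf_le (fun c : C => c.1.1) ⟨c, hc⟩,
    fun c hc => le_iInf (f := fun c : C => c.1.1) fun d => hc d.2⟩, ?_⟩
  · by_cases e : s.1 = ⊤
    · refine h1.mem_of_tendsto (t2 (f := b) (l := atTop) e fun k => (eventually_ge_atTop k).mono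
        fun j hj => .inr ⟨j, hj, by simp [b], by simp [b]⟩) (Eventually.of_forall fun j => ?_)
      refine h2 (a := u j ⊤) (fun l => ?_) (h1.mem_of_tendsto (t1 (f := fun i : ℕ => u j i)
        (l := atTop) (fun c => by simpa [u] using congrFun c (2 * j + 2))
        (tendsto_pi_nhds.2 fun l => ?_)) (Eventually.of_forall fun i => ?_))
      · simp only [u, b]
        split_ifs <;> first | exact le_rfl | exact zero_le | omega
      · simp only [u]
        split_ifs
        exacts [ENat.tendsto_natCast_nhds_top, tendsto_const_nhds]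
      · obtain ⟨c, hc⟩ := ((tendsto_pi_nhds.1 a1 (2 * j + 1)).eventually
          (le_mem_nhds ((ENat.coe_lt_top i).trans_eq (congrFun e _).symm))).exists
        refine h2 (a := c.1) (fun l => ?_) (h3 c.2)
        simp only [u]
        split_ifs with h
        exacts [hc.trans (c.1.2.1 h), zero_le]
    · exact h1.mem_of_tendsto (t1 e a1) (Eventually.of_forall fun c => h3 c.2)
  · by_cases e : t.1 = ⊤
    · obtain ⟨c, hc⟩ := h4
      exact subset_closure ⟨c, hc, (le_top (a := c.1)).trans_eq e.symm⟩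
    · exact mem_closure_of_tendsto (t1 e a2) (Eventually.of_forall fun c => ⟨c, c.2, le_rfl⟩)

theorem result : ∃ (X : Type) (_ : SemilatticeInf X) (_ : TopologicalSpace X),
    ContinuousInf X ∧ T2Space X ∧ CComplete X ∧ ¬ SComplete X := by
  refine ⟨Yᵒᵈ, inferInstance, inferInstance, inferInstance,
    T2Space.of_injective_continuous (Y := ℕ → ℕ∞) Subtype.val_injective cv,
    fun F a b C c d e => cc F a b C c d e.symm, fun h => ?_⟩
  obtain ⟨a, a1, a2⟩ := h.1 {g : Y | g.1 0 ≠ ⊤} ⟨u 0 0, show (u 0 0).1 0 ≠ ⊤ by simp [u]⟩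
    fun g c k d => (max_lt (Ne.lt_top c) (Ne.lt_top d)).ne
  have e : Subtype.val a = ⊤ := funext fun l => ENat.eq_top_iff_forall_ge.2 fun i => by
    simpa [u, show l ≤ 2 * l + 1 by omega] using
      a1.1 (show (u l i).1 0 ≠ ⊤ by simp [u]) l
  obtain ⟨x, x1, c, c1, c2⟩ := mem_closure_iff_nhds.1 a2 _
    ((td.1 (tendsto_id (x := 𝓝 (show Y from a)))).2 0 (.inl e))
  refine c1 (top_le_iff.1 (le_trans ?_ (c2 0)))
  rcases x1 with x1 | ⟨j, -, x1, -⟩
  · exact (congrFun x1 0).ge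
  · exact x1.ge.trans ((show Y from x).2.1 (Nat.zero_le _))

end Pool.Agent.Results.MP_5a7388_gt.Main
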